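import Pool.Agent.Helper35.SHQ.Sheet

set_option autoImplicit false

namespace SHQ
namespace S76

theorem shf_filter {ι : Type} (s : ι → Fin 3) (P : ι → Bool) (l : List ι) :
    Shf (l.map s) ((l.filter P).map s) ((l.filter fun i => !P i).map s) := by
  induction l with
  | nil => exact Shf.nil
  | cons c l ih =>
    cases h : P c with
    | true =>
      simp only [List.filter_cons, h, List.map_cons, if_true, Bool.not_true, if_false,
        Bool.false_eq_true]
      exact Shf.left _ ih
    | false =>
      simp only [List.filter_cons, h, List.map_cons, if_true, Bool.not_false, if_false,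
        Bool.false_eq_true]
      exact Shf.right _ ih

theorem filter_update {ι : Type} [DecidableEq ι] (P : ι → Bool) (c : ι) (b : Bool) (l : List ι)
    (hc : c ∉ l) : l.filter (Function.update P c b) = l.filter P := by
  apply List.filter_congr
  intro i hi
  have : i ≠ c := by rintro rfl; exact hc hi
  rw [Function.update_of_ne this]

theorem filter_update' {ι : Type} [DecidableEq ι] (P : ι → Bool) (c : ι) (b : Bool) (l : List ι)
    (hc : c ∉ l) : (l.filter fun i => !(Function.update P c b i)) = l.filter fun i => !P i := by
  apply List.filter_congr
  intro i hi
  have : i ≠ c := by rintro rfl; exact hc hi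
  rw [Function.update_of_ne this]

theorem shf_exists {ι : Type} [DecidableEq ι] (s : ι → Fin 3) (l : List ι) :
    ∀ a d : W, l.Nodup → Shf (l.map s) a d →
      ∃ P : ι → Bool, (l.filter P).map s = a ∧ (l.filter fun i => !P i).map s = d := by
  induction l with
  | nil =>
    intro a d _ h
    simp only [List.map_nil] at h
    cases h
    exact ⟨fun _ => true, rfl, rfl⟩
  | cons c l ih =>
    intro a d hn h
    rw [List.nodup_cons] at hn
    rw [List.map_cons] at h
    cases h with
    | left _ h =>
      obtain ⟨P, h1, h2⟩ := ih _ _ hn.2 h
      refine ⟨Function.update P c true, ?_, ?_⟩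
      · rw [List.filter_cons, Function.update_self, if_pos rfl, List.map_cons,
          filter_update P c true l hn.1, h1]
      · rw [List.filter_cons, Function.update_self, Bool.not_true, if_neg (by simp),
          filter_update' P c true l hn.1, h2]
    | right _ h =>
      obtain ⟨P, h1, h2⟩ := ih _ _ hn.2 h
      refine ⟨Function.update P c false, ?_, ?_⟩
      · rw [List.filter_cons, Function.update_self, if_neg (by simp),
          filter_update P c false l hn.1, h1]
      · rw [List.filter_cons, Function.update_self, Bool.not_false, if_pos rfl, List.map_cons,
          filter_update' P c false l hn.1, h2]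

theorem iff_SQ {m : ℕ} (s : Fin m → Fin 3) : IsShuffleSquare s ↔ SQ (List.ofFn s) := by
  rw [List.ofFn_eq_map]
  constructor
  · rintro ⟨A, hA⟩
    refine ⟨subw s A, ?_⟩
    have h := shf_filter s (fun i => decide (i ∈ A)) (List.finRange m)
    have h2 : ((List.finRange m).filter fun i => !decide (i ∈ A)).map s = subw s A := by
      rw [hA]
      unfold subw
      congr 1
      apply List.filter_congr
      intro i _
      simp
    rw [h2] at h
    exact h
  · rintro ⟨v, hv⟩
    obtain ⟨P, h1, h2⟩ := shf_exists s (List.finRange m) v v (List.nodup_finRange m) hv
    refine ⟨Finset.univ.filter fun i => P i = true, ?_⟩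
    have e1 : subw s (Finset.univ.filter fun i => P i = true) = v := by
      rw [← h1]
      unfold subw
      congr 1
      apply List.filter_congr
      intro i _
      simp
    have e2 : subw s (Finset.univ.filter fun i => P i = true)ᶜ = v := by
      rw [← h2]
      unfold subw
      congr 1
      apply List.filter_congr
      intro i _
      simp
    rw [e1, e2]

end S76

theorem st_DEF : ST_DEF := by
  intro n
  rw [← Set.ncard_image_of_injective (S3 n) List.ofFn_injective]
  congr 1
  ext x
  constructor
  · rintro ⟨s, hs, rfl⟩
    exact ⟨List.length_ofFn, (S76.iff_SQ s).1 hs⟩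
  · rintro ⟨hl, hx⟩
    refine ⟨fun i => x.get (Fin.cast hl.symm i), ?_, ?_⟩
    · show IsShuffleSquare _
      rw [S76.iff_SQ]
      convert hx
      apply List.ext_get
      · simp [hl]
      · intro i h1 h2
        simp
    · apply List.ext_get
      · simp [hl]
      · intro i h1 h2
        simp

end SHQ
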